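import Pool.Agent.V11251.DP

set_option autoImplicit false
set_option linter.unusedVariables false
set_option linter.unusedSectionVars false

open FirstOrder Polynomial

universe u

namespace Pool.Agent.Results.MP_d395f7_lc.DegDefinable

open Pool.Agent.V11251

section

variable {K : Type u} [Field K] [CharZero K]

/-- constants -/
def IsC (f : K[X]) : Prop := f = 0 ∨ ∃ g, f * g = 1

/-- evaluation -/
def Ev (f a b : K[X]) : Prop := (X - a) ∣ (f - b)

/-- natural numbers -/
def IsN (c : K[X]) : Prop :=
  IsC c ∧ ∃ f : K[X], f ≠ 0 ∧ Ev f c 0 ∧ ∀ r, IsC r → Ev f r 0 → r = 0 ∨ Ev f (r - 1) 0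

/-- strict order of natural numbers -/
def Lt (i n : K[X]) : Prop := ∃ k : K[X], IsN k ∧ k ≠ 0 ∧ i + k = n

/-- `f` has degree `n` -/
def Deg (f n : K[X]) : Prop :=
  IsN n ∧ ∃ a : K[X], ¬ Ev a n 0 ∧ ∀ c, IsC c → ∃ s : K[X], Ev (s - a) n 0 ∧
    (∀ i, IsN i → Lt i n → ∃ b, IsC b ∧ Ev s (i + 1) b ∧ Ev (s - a) i (c * b)) ∧
    ∃ b, IsC b ∧ Ev f c b ∧ Ev s 0 b

theorem isC_iff (f : K[X]) : IsC f ↔ ∃ c : K, f = C c := by
  constructor
  · rintro (rfl | ⟨g, hg⟩)
    · exact ⟨0, by simp⟩
    · obtain ⟨r, _, hr⟩ := Polynomial.isUnit_iff.1 (IsUnit.of_mul_eq_one g hg)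
      exact ⟨r, hr.symm⟩
  · rintro ⟨c, rfl⟩
    by_cases hc : c = 0
    · left; rw [hc, C_0]
    · right; exact ⟨C c⁻¹, by rw [← C_mul, mul_inv_cancel₀ hc, C_1]⟩

theorem ev_iff (f b : K[X]) (α : K) : Ev f (C α) b ↔ f.eval α = b.eval α := by
  unfold Ev
  rw [dvd_iff_isRoot, IsRoot.def, eval_sub, sub_eq_zero]

theorem ev_iff0 (f : K[X]) (α : K) : Ev f (C α) 0 ↔ f.eval α = 0 := by
  rw [ev_iff, eval_zero]

theorem isN_iff (c : K[X]) : IsN c ↔ ∃ n : ℕ, c = C (n : K) := by
  constructor
  · rintro ⟨hc, f, hf, hfc, hcl⟩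
    obtain ⟨γ, rfl⟩ := (isC_iff c).1 hc
    by_contra hcon
    push Not at hcon
    have h1 : ∀ k : ℕ, f.eval (γ - k) = 0 := by
      intro k
      induction k with
      | zero => simpa using (ev_iff0 f γ).1 hfc
      | succ k ih =>
        rcases hcl (C (γ - k)) ((isC_iff _).2 ⟨_, rfl⟩) ((ev_iff0 _ _).2 ih) with h | h
        · rw [C_eq_zero, sub_eq_zero] at h
          exact absurd (by rw [h]) (hcon k)
        · have e : C (γ - (k : K)) - 1 = C (γ - ((k + 1 : ℕ) : K)) := by
            rw [← C_1, ← C_sub]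
            push_cast
            congr 1
            ring
          rw [e, ev_iff0] at h
          exact h
    have h2 : Function.Injective (fun k : ℕ => γ - (k : K)) := by
      intro a b hab
      have : (a : K) = b := by
        have := sub_right_injective hab
        exact this
      exact_mod_cast this
    apply hf
    apply Polynomial.eq_zero_of_infinite_isRoot
    exact (Set.infinite_range_of_injective h2).mono (by rintro _ ⟨k, rfl⟩; exact h1 k)
  · rintro ⟨n, rfl⟩
    refine ⟨(isC_iff _).2 ⟨_, rfl⟩, ∏ i ∈ Finset.range (n + 1), (X - C (i : K)), ?_, ?_, ?_⟩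
    · exact Finset.prod_ne_zero_iff.2 fun i _ => X_sub_C_ne_zero _
    · rw [ev_iff0, eval_prod]
      exact Finset.prod_eq_zero (Finset.mem_range.2 (Nat.lt_succ_self n)) (by simp)
    · intro r hr h
      obtain ⟨ρ, rfl⟩ := (isC_iff r).1 hr
      rw [ev_iff0, eval_prod, Finset.prod_eq_zero_iff] at h
      obtain ⟨i, hi, h⟩ := h
      simp only [eval_sub, eval_X, eval_C, sub_eq_zero] at h
      subst h
      rcases i with _ | i
      · left; simp
      · right
        have e : C (((i + 1 : ℕ) : K)) - 1 = C (i : K) := by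
          rw [← C_1, ← C_sub]
          push_cast
          congr 1
          ring
        rw [e, ev_iff0, eval_prod]
        refine Finset.prod_eq_zero (i := i) (Finset.mem_range.2 ?_) (by simp)
        have := Finset.mem_range.1 hi
        omega

theorem lt_iff (i n : ℕ) : Lt (C (i : K)) (C (n : K)) ↔ i < n := by
  constructor
  · rintro ⟨k, hk, hk0, h⟩
    obtain ⟨k, rfl⟩ := (isN_iff _).1 hk
    rw [← C_add] at h
    have h' : ((i + k : ℕ) : K) = n := by
      push_cast
      exact C_injective h
    have h'' : i + k = n := by exact_mod_cast h'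
    have : k ≠ 0 := by
      rintro rfl
      simp at hk0
    omega
  · intro h
    refine ⟨C ((n - i : ℕ) : K), (isN_iff _).2 ⟨_, rfl⟩, ?_, ?_⟩
    · rw [Ne, C_eq_zero]
      have : n - i ≠ 0 := by omega
      exact_mod_cast this
    · rw [← C_add]
      congr 1
      rw [Nat.cast_sub h.le]
      ring

theorem horner (n : ℕ) (a s : ℕ → K) (γ : K) (h0 : s n = a n)
    (h : ∀ i < n, s i = a i + γ * s (i + 1)) :
    s 0 = ∑ i ∈ Finset.range (n + 1), a i * γ ^ i := by
  induction n generalizing s a with
  | zero => simpa using h0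
  | succ n ih =>
    have h1 : s (0 + 1) = _ :=
      ih (fun i => a (i + 1)) (fun i => s (i + 1)) h0 (fun i hi => h (i + 1) (by omega))
    rw [Finset.sum_range_succ', h 0 (by omega)]
    rw [h1, Finset.mul_sum, add_comm]
    congr 1
    · apply Finset.sum_congr rfl
      intro i _
      ring
    · simp

theorem exists_interp (n : ℕ) (r : ℕ → K) :
    ∃ a : K[X], ∀ i ≤ n, a.eval (i : K) = r i := by
  refine ⟨Lagrange.interpolate (Finset.range (n + 1)) (fun i : ℕ => (i : K)) r, ?_⟩
  intro i hi
  exact Lagrange.eval_interpolate_at_node (r := r) (Nat.cast_injective.injOn)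
    (Finset.mem_range.2 (by omega))

theorem deg_iff (f : K[X]) (n : ℕ) : Deg f (C (n : K)) ↔ f.degree = n := by
  constructor
  · rintro ⟨_, a, ha, h⟩
    have hf : f = ∑ i ∈ Finset.range (n + 1), C (a.eval (i : K)) * X ^ i := by
      apply Polynomial.funext
      intro γ
      obtain ⟨s, h1, h2, b, hb, h3, h4⟩ := h (C γ) ((isC_iff _).2 ⟨_, rfl⟩)
      obtain ⟨β, rfl⟩ := (isC_iff _).1 hb
      rw [ev_iff, eval_C] at h3
      have h0 : (0 : K[X]) = C 0 := by simp
      rw [h0, ev_iff, eval_C] at h4
      rw [ev_iff0, eval_sub, sub_eq_zero] at h1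
      have h5 := horner n (fun i => a.eval (i : K)) (fun i => s.eval (i : K)) γ h1 (by
        intro i hi
        obtain ⟨b, hb, hb1, hb2⟩ := h2 (C (i : K)) ((isN_iff _).2 ⟨_, rfl⟩) ((lt_iff _ _).2 hi)
        obtain ⟨β', rfl⟩ := (isC_iff _).1 hb
        have e : C (i : K) + 1 = C ((i + 1 : ℕ) : K) := by
          rw [← C_1, ← C_add]; push_cast; rfl
        rw [e, ev_iff, eval_C] at hb1
        rw [ev_iff, eval_sub, eval_mul, eval_C, eval_C] at hb2
        rw [hb1]
        linear_combination hb2)
      simp only [Nat.cast_zero] at h5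
      rw [h3, ← h4, h5, eval_finset_sum]
      simp
    rw [hf]
    have hc : (∑ i ∈ Finset.range (n + 1), C (a.eval (i : K)) * X ^ i).coeff n =
        a.eval (n : K) := by
      rw [finset_sum_coeff]
      simp only [coeff_C_mul_X_pow]
      rw [Finset.sum_eq_single n]
      · simp
      · intro b _ hb
        rw [if_neg (fun h => hb h.symm)]
      · intro hn
        exact absurd (Finset.mem_range.2 (Nat.lt_succ_self n)) hn
    apply le_antisymm
    · apply (degree_sum_le _ _).trans
      apply Finset.sup_le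
      intro i hi
      apply (degree_C_mul_X_pow_le _ _).trans
      have := Finset.mem_range.1 hi
      exact_mod_cast (by omega : i ≤ n)
    · apply le_degree_of_ne_zero
      rw [hc]
      rw [ev_iff0] at ha
      exact ha
  · intro hf
    have hnd : f.natDegree = n := natDegree_eq_of_degree_eq_some hf
    refine ⟨(isN_iff _).2 ⟨_, rfl⟩, ?_⟩
    obtain ⟨a, ha⟩ := exists_interp n (fun i => f.coeff i)
    refine ⟨a, ?_, ?_⟩
    · rw [ev_iff0, ha n le_rfl, ← hnd]
      have : f ≠ 0 := by
        rintro rfl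
        simp at hf
      exact leadingCoeff_ne_zero.2 this
    · intro c hc
      obtain ⟨γ, rfl⟩ := (isC_iff _).1 hc
      let S : ℕ → K := fun i => ∑ j ∈ Finset.range (n + 1 - i), f.coeff (i + j) * γ ^ j
      obtain ⟨s, hs⟩ := exists_interp n S
      refine ⟨s, ?_, ?_, ?_⟩
      · rw [ev_iff0, eval_sub, hs n le_rfl, ha n le_rfl]
        simp [S]
      · intro i hi hin
        obtain ⟨i, rfl⟩ := (isN_iff _).1 hi
        rw [lt_iff] at hin
        refine ⟨C (S (i + 1)), (isC_iff _).2 ⟨_, rfl⟩, ?_, ?_⟩
        · have e : C (i : K) + 1 = C ((i + 1 : ℕ) : K) := by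
            rw [← C_1, ← C_add]; push_cast; rfl
          rw [e, ev_iff, eval_C, hs (i + 1) (by omega)]
        · rw [ev_iff, eval_sub, eval_mul, eval_C, eval_C, hs i hin.le, ha i hin.le]
          simp only [S]
          have e : n + 1 - i = (n + 1 - (i + 1)) + 1 := by omega
          rw [e, Finset.sum_range_succ', Finset.mul_sum]
          simp only [pow_zero, mul_one, add_zero, add_sub_cancel_right]
          apply Finset.sum_congr rfl
          intro j _
          rw [show i + (j + 1) = i + 1 + j by ring]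
          ring
      · refine ⟨C (f.eval γ), (isC_iff _).2 ⟨_, rfl⟩, ?_, ?_⟩
        · rw [ev_iff, eval_C]
        · have h0 : (0 : K[X]) = C 0 := by simp
          rw [h0, ev_iff, eval_C]
          have := hs 0 (by omega)
          simp only [Nat.cast_zero] at this
          rw [this]
          simp only [S, zero_add, Nat.sub_zero]
          rw [eval_eq_sum_range, hnd]

theorem rel_iff (f g : K[X]) :
    f.degree = g.degree ↔ (f = 0 ∧ g = 0) ∨ ∃ n, Deg f n ∧ Deg g n := by
  constructor
  · intro h
    by_cases hf : f = 0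
    · left
      refine ⟨hf, ?_⟩
      rw [hf, degree_zero] at h
      exact degree_eq_bot.1 h.symm
    · right
      refine ⟨C (f.natDegree : K), (deg_iff _ _).2 (degree_eq_natDegree hf), (deg_iff _ _).2 ?_⟩
      rw [← h]
      exact degree_eq_natDegree hf
  · rintro (⟨rfl, rfl⟩ | ⟨n, h1, h2⟩)
    · rfl
    · obtain ⟨n, rfl⟩ := (isN_iff _).1 h1.1
      rw [(deg_iff _ _).1 h1, (deg_iff _ _).1 h2]

end

section definable

variable {K : Type u} [Field K] [CharZero K] [Ring.CompatibleRing K[X]]

theorem dp_IsC : DP Language.ring ({X} : Set K[X]) (fun v : Fin 1 → K[X] => IsC (v 0)) := by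
  unfold IsC
  refine (DP.eq (TF.var 0) TF.zero).or (DP.ex ?_)
  exact DP.eq ((TF.var (some 0)).mul (TF.var none)) TF.one

theorem dp_Ev : DP Language.ring ({X} : Set K[X]) (fun v : Fin 3 → K[X] => Ev (v 0) (v 1) (v 2)) := by
  unfold Ev
  exact DP.dvd ((TF.const (Set.mem_singleton _)).sub (TF.var 1)) ((TF.var 0).sub (TF.var 2))

theorem dp_IsN : DP Language.ring ({X} : Set K[X]) (fun v : Fin 1 → K[X] => IsN (v 0)) := by
  unfold IsN
  refine dp_IsC.and (DP.ex ?_)
  refine (DP.ne (TF.var none) TF.zero).and (DP.and ?_ (DP.all ?_))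
  · exact DP.subst₃ dp_Ev (TF.var none) (TF.var (some 0)) TF.zero
  · refine (DP.subst₁ dp_IsC (TF.var none)).imp (DP.imp ?_ (DP.or ?_ ?_))
    · exact DP.subst₃ dp_Ev (TF.var (some none)) (TF.var none) TF.zero
    · exact DP.eq (TF.var none) TF.zero
    · exact DP.subst₃ dp_Ev (TF.var (some none)) ((TF.var none).sub TF.one) TF.zero

theorem dp_Lt : DP Language.ring ({X} : Set K[X]) (fun v : Fin 2 → K[X] => Lt (v 0) (v 1)) := by
  unfold Lt
  refine DP.ex ((DP.subst₁ dp_IsN (TF.var none)).and (DP.and ?_ ?_))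
  · exact DP.ne (TF.var none) TF.zero
  · exact DP.eq ((TF.var (some 0)).add (TF.var none)) (TF.var (some 1))

theorem dp_Deg : DP Language.ring ({X} : Set K[X]) (fun v : Fin 2 → K[X] => Deg (v 0) (v 1)) := by
  unfold Deg
  refine (DP.subst₁ dp_IsN (TF.var 1)).and (DP.ex (DP.and ?_ (DP.all (DP.imp ?_ (DP.ex ?_)))))
  · exact (DP.subst₃ dp_Ev (TF.var none) (TF.var (some 1)) TF.zero).not
  · exact DP.subst₁ dp_IsC (TF.var none)
  · -- context: s = none, c = some none, a = some (some none), f = some (some (some 0))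
    refine DP.and ?_ (DP.and ?_ ?_)
    · exact DP.subst₃ dp_Ev ((TF.var none).sub (TF.var (some (some none))))
        (TF.var (some (some (some 1)))) TF.zero
    · refine DP.all (DP.imp ?_ (DP.imp ?_ (DP.ex (DP.and ?_ (DP.and ?_ ?_)))))
      · exact DP.subst₁ dp_IsN (TF.var none)
      · exact DP.subst₂ dp_Lt (TF.var none) (TF.var (some (some (some (some 1)))))
      · exact DP.subst₁ dp_IsC (TF.var none)
      · exact DP.subst₃ dp_Ev (TF.var (some (some none))) ((TF.var (some none)).add TF.one)
          (TF.var none)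
      · exact DP.subst₃ dp_Ev ((TF.var (some (some none))).sub
          (TF.var (some (some (some (some none)))))) (TF.var (some none))
          ((TF.var (some (some (some none)))).mul (TF.var none))
    · refine DP.ex (DP.and ?_ (DP.and ?_ ?_))
      · exact DP.subst₁ dp_IsC (TF.var none)
      · exact DP.subst₃ dp_Ev (TF.var (some (some (some (some 0))))) (TF.var (some (some none)))
          (TF.var none)
      · exact DP.subst₃ dp_Ev (TF.var (some none)) TF.zero (TF.var none)

end definable

/-- For every field `K` of characteristic `0`, in particular for `K = ℂ`, equality of degrees is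
definable in the ring `K[t]` by a first-order formula of the language of rings with the single
parameter `t`. -/
theorem result (K : Type u) [Field K] [CharZero K] [Ring.CompatibleRing K[X]] :
    ({X} : Set K[X]).Definable Language.ring
      {v : Fin 2 → K[X] | (v 0).degree = (v 1).degree} := by
  apply DP.definable
  have : DP Language.ring ({X} : Set K[X])
      (fun v : Fin 2 → K[X] => (v 0 = 0 ∧ v 1 = 0) ∨ ∃ n, Deg (v 0) n ∧ Deg (v 1) n) := by
    refine DP.or (DP.and ?_ ?_) (DP.ex (DP.and ?_ ?_))
    · exact DP.eq (TF.var 0) TF.zero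
    · exact DP.eq (TF.var 1) TF.zero
    · exact DP.subst₂ dp_Deg (TF.var (some 0)) (TF.var none)
    · exact DP.subst₂ dp_Deg (TF.var (some 1)) (TF.var none)
  exact this.congr fun v => (rel_iff _ _).symm

end Pool.Agent.Results.MP_d395f7_lc.DegDefinable
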